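import Pool.Agent.H310.Beckmann.Final

/-!
# The confined second-order Beckmann problem: a negative answer

There are a bounded planar Lipschitz domain `Ω` and a load `f = fp - fm` (two positive and two
negative unit point masses in the closure of `Ω`) such that the confined second-order Beckmann
problem has a solution (of finite cost), but no solution at all has the form `σ_π + σ_{∂Ω}` with
`π` a finite positive measure on triples of points of the closure of `Ω` and `σ_{∂Ω}` a finite
symmetric tensor measure on the boundary of `Ω`.

Idea. With `u = (x² - y²)/2` as certificate every solution is `diag(a, -b)` with `a, b ≥ 0`.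
The boundary of `Ω` touches a characteristic segment of `u` at infinitely many tips, and this
forces every solution to have divergence of infinite total variation inside `Ω`, whereas the
divergence of every `σ_π` is a finite vector measure.
-/

open MeasureTheory Set
open Pool.Agent.H310.Beckmann

namespace Pool.Agent.Results.MP_5ff43f_an.NoSplitting

theorem result :
    ∃ (Ω : Set (E 2)) (fp fm : Measure (E 2)),
      (IsOpen Ω ∧ IsConnected Ω ∧ Bornology.IsBounded Ω ∧ HasLipschitzBoundary Ω) ∧
      (IsFiniteMeasure fp ∧ IsFiniteMeasure fm ∧ fp (closure Ω)ᶜ = 0 ∧ fm (closure Ω)ᶜ = 0) ∧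
      (∃ σ : TensorMeasure 2, IsSolution Ω fp fm σ ∧ σ.cost < ⊤) ∧
      ∀ σ : TensorMeasure 2, IsSolution Ω fp fm σ → ¬ IsRepresentable Ω σ := by
  refine ⟨Om, fpos, fneg, ⟨isOpen_Om, isConnected_Om, bounded_Om, hasLipschitzBoundary_Om⟩,
    ⟨inferInstance, inferInstance, fpos_closure, fneg_closure⟩,
    ⟨sig0, solution_sig0, ?_⟩, fun σ hσ => not_representable hσ⟩
  rw [cost_sig0]
  exact ENNReal.ofReal_lt_top

end Pool.Agent.Results.MP_5ff43f_an.NoSplitting
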